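import Mathlib
import Pool.Agent.Helper60_LA.GroupFinal

set_option autoImplicit false

open SimpleGraph Pool.Agent.Helper14_LA Pool.Agent.H60LA

namespace Pool.Agent.Results.MP_0a041d_co.CayleyGraphs

/-- The linear arboricity of `G`: the least `k` such that `G` is the union of `k` linear forests
(acyclic graphs all of whose degrees are at most two) on the vertex set of `G`. -/
noncomputable def la {V : Type} (G : SimpleGraph V) : ℕ :=
  sInf {k : ℕ | ∃ F : Fin k → SimpleGraph V,
    (∀ i, (F i).IsAcyclic ∧ ∀ v, ((F i).neighborSet v).ncard ≤ 2) ∧ (⨆ i, F i) = G}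

/-- **The linear arboricity conjecture for Cayley graphs of nilpotent groups which are complete on
a normal subgroup with elementary abelian quotient.**
Let `Γ` be a finite nilpotent group and `A` a normal subgroup such that `Γ / A` is an elementary
abelian `p`-group (`A = 1` is allowed). Let `S` be a nonempty subset of `Γ` with `S⁻¹ = S`, without
the identity, such that `S` contains all nonidentity elements of `A` (or: `|S|` is even, `S` misses
`A` and has at most two elements in every coset of `A`). If `p > 3`, assume also that `S` has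
as many elements in the coset of `g ^ t` as in the coset of `g`, for `t` prime to `p`.
Then the Cayley graph of `Γ` with connection set `S` (Mathlib's `SimpleGraph.mulCayley`), which is
`|S|`-regular, has linear arboricity `⌈(|S| + 1) / 2⌉`.

For `A = 1` this covers all Cayley graphs of elementary abelian `2`-groups and `3`-groups. -/
theorem result (p : ℕ) [Fact p.Prime] (Γ : Type) [Group Γ] [Finite Γ] [Group.IsNilpotent Γ]
    (A : Subgroup Γ) [A.Normal] (hcomm : ∀ g h : Γ, g * h * g⁻¹ * h⁻¹ ∈ A)
    (hpow : ∀ g : Γ, g ^ p ∈ A)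
    (S : Set Γ) (h1 : (1 : Γ) ∉ S) (hne : S.Nonempty) (hsym : ∀ s ∈ S, s⁻¹ ∈ S)
    (hA : (∀ a ∈ A, a ≠ 1 → a ∈ S) ∨ (Even S.ncard ∧ (∀ a ∈ A, a ∉ S) ∧
      ∀ g : Γ, {s ∈ S | g⁻¹ * s ∈ A}.ncard ≤ 2))
    (hinv : 3 < p → ∀ (g : Γ) (t : ℕ), ¬ p ∣ t →
      {s ∈ S | (g ^ t)⁻¹ * s ∈ A}.ncard = {s ∈ S | g⁻¹ * s ∈ A}.ncard) :
    (∀ v, ((mulCayley S).neighborSet v).ncard = S.ncard) ∧
      la (mulCayley S) = (S.ncard + 2) / 2 :=
  nilpotent_cayley p Γ A hcomm hpow S h1 hne hsym hA hinv

end Pool.Agent.Results.MP_0a041d_co.CayleyGraphs
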