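import Mathlib
import Pool.Agent.Helper76_LAG.Res
import Pool.Agent.Helper76_LAG.All
import Pool.Agent.Helper22_CG.Res
import Pool.Agent.Helper9_CG.All

set_option autoImplicit false

open SimpleGraph

namespace Pool.Agent.Results.MP_0a041d_co.ConstantGirth

/-- The linear arboricity of `G`: the least `k` such that `G` is the union of `k` linear forests
(acyclic graphs all of whose degrees are at most two) on the vertex set of `G`. -/
noncomputable def la {V : Type} (G : SimpleGraph V) : ℕ :=
  sInf {k : ℕ | ∃ F : Fin k → SimpleGraph V,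
    (∀ i, (F i).IsAcyclic ∧ ∀ v, ((F i).neighborSet v).ncard ≤ 2) ∧ (⨆ i, F i) = G}

/-- **The linear arboricity conjecture for graphs of girth at least an absolute constant.**
There is a constant `g` such that `la G ≤ ⌈(Δ+1)/2⌉` for every finite graph `G` of maximum degree
`Δ` all of whose cycles have length at least `min g (800 log (Δ + 2))`, in particular for all graphs
of girth at least `g`; if `G` is moreover `r`-regular with `r ≥ 1`, then `la G = ⌈(r+1)/2⌉`. -/
theorem result : ∃ g : ℕ,
    (∀ (V : Type) [Fintype V] (G : SimpleGraph V) [DecidableRel G.Adj],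
      (∀ (v : V) (c : G.Walk v v), c.IsCycle →
        min (g : ℝ) (800 * Real.log (G.maxDegree + 2)) ≤ c.length) →
      la G ≤ (G.maxDegree + 2) / 2) ∧
    (∀ (V : Type) [Fintype V] [Nonempty V] (G : SimpleGraph V) [DecidableRel G.Adj] (r : ℕ),
      0 < r → G.IsRegularOfDegree r →
      (∀ (v : V) (c : G.Walk v v), c.IsCycle → min (g : ℝ) (800 * Real.log (r + 2)) ≤ c.length) →
      la G = (r + 2) / 2) := by
  obtain ⟨g, h1, h2⟩ := Pool.Agent.CG.Res.final Pool.Agent.CG.H9.topc
  refine ⟨g, ?_, ?_⟩
  · intro V _ G _ hg
    rcases le_total (g : ℝ) (800 * Real.log (G.maxDegree + 2)) with h | h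
    · refine h1 V G fun v c hc => ?_
      have h3 := hg v c hc
      rw [min_eq_left h] at h3
      exact_mod_cast h3
    · refine Pool.Agent.LAG.Res.upper Pool.Agent.LAG.fin V G fun v c hc => ?_
      have h3 := hg v c hc
      rwa [min_eq_right h] at h3
  · intro V _ _ G _ r hr hreg hg
    rcases le_total (g : ℝ) (800 * Real.log (r + 2)) with h | h
    · refine h2 V G r hr hreg fun v c hc => ?_
      have h3 := hg v c hc
      rw [min_eq_left h] at h3
      exact_mod_cast h3
    · refine Pool.Agent.LAG.Res.regular Pool.Agent.LAG.fin V G r hr hreg fun v c hc => ?_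
      have h3 := hg v c hc
      rwa [min_eq_right h] at h3

end Pool.Agent.Results.MP_0a041d_co.ConstantGirth
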