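import Mathlib
import Pool.Agent.Helper22_C4N.M2
import Pool.Agent.Helper22_C4N.Res

set_option autoImplicit false

open SimpleGraph

namespace Pool.Agent.Results.MP_0a041d_co.FourCycleFree

/-- The linear arboricity of `G`: the least `k` such that `G` is the union of `k` linear forests
(acyclic graphs all of whose degrees are at most two) on the vertex set of `G`. -/
noncomputable def la {V : Type} (G : SimpleGraph V) : ℕ :=
  sInf {k : ℕ | ∃ F : Fin k → SimpleGraph V,
    (∀ i, (F i).IsAcyclic ∧ ∀ v, ((F i).neighborSet v).ncard ≤ 2) ∧ (⨆ i, F i) = G}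

/-- **The linear arboricity conjecture for graphs without cycles of length four.** There are
constants `D0`, `C` such that for every finite graph `G` of maximum degree `Δ` without a cycle of
length four `la G ≤ Δ / 2 + C` and, if `Δ ≥ D0`, `la G ≤ ⌊(Δ + 1) / 2⌋ + 1`, which is
`⌈(Δ + 1) / 2⌉` for even `Δ`. If `G` is moreover `r`-regular with `r ≥ D0`, then
`la G = ⌈(r + 1) / 2⌉` for even `r`, and `la G` is `⌈(r + 1) / 2⌉` or `⌈(r + 1) / 2⌉ + 1` for
odd `r`. -/
theorem result : ∃ D0 C : ℕ,
    (∀ (V : Type) [Fintype V] (G : SimpleGraph V) [DecidableRel G.Adj],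
      (∀ (v : V) (c : G.Walk v v), c.IsCycle → c.length ≠ 4) →
      la G ≤ G.maxDegree / 2 + C ∧
        (D0 ≤ G.maxDegree → la G ≤ (G.maxDegree + 1) / 2 + 1)) ∧
    (∀ (V : Type) [Fintype V] [Nonempty V] (G : SimpleGraph V) [DecidableRel G.Adj] (r : ℕ),
      0 < r → D0 ≤ r → G.IsRegularOfDegree r →
      (∀ (v : V) (c : G.Walk v v), c.IsCycle → c.length ≠ 4) →
      (Even r → la G = (r + 2) / 2) ∧
      (Odd r → la G = (r + 2) / 2 ∨ la G = (r + 2) / 2 + 1)) :=
  Pool.Agent.C4N.Res.final2 Pool.Agent.C4N.H22.top0 Pool.Agent.C4N.H22.top2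

end Pool.Agent.Results.MP_0a041d_co.FourCycleFree
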