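import Mathlib
import Pool.Agent.Helper48_LPY.All

set_option autoImplicit false

open SimpleGraph Pool.Agent.Helper14_LA

namespace Pool.Agent.Results.MP_0a041d_co.PolylogarithmicError

/-- The linear arboricity of `G`: the least `k` such that `G` is the union of `k` linear forests
(acyclic graphs all of whose degrees are at most two) on the vertex set of `G`. -/
noncomputable def la {V : Type} (G : SimpleGraph V) : ℕ :=
  sInf {k : ℕ | ∃ F : Fin k → SimpleGraph V,
    (∀ i, (F i).IsAcyclic ∧ ∀ v, ((F i).neighborSet v).ncard ≤ 2) ∧ (⨆ i, F i) = G}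

/-- **Linear arboricity of all graphs.** There is an absolute constant `C` such that every finite
simple graph of maximum degree at most `Δ` (`Δ ≥ 1`) has linear arboricity at most
`Δ / 2 + C (1 + ln Δ) ^ 4`. -/
theorem result : ∃ C : ℝ, ∀ (V : Type) [Fintype V] (G : SimpleGraph V) [DecidableRel G.Adj]
    (Δ : ℕ), 1 ≤ Δ → (∀ v, G.degree v ≤ Δ) →
    (la G : ℝ) ≤ (Δ : ℝ) / 2 + C * (1 + Real.log Δ) ^ 4 := by
  obtain ⟨C, hC⟩ := Pool.Agent.LPY.fin_all
  refine ⟨C, ?_⟩
  intro V _ G _ Δ hΔ hdeg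
  obtain ⟨n, hn, hle⟩ := hC V G Δ hΔ (by
    intro v
    rw [← Nat.card_coe_set_eq, Nat.card_eq_fintype_card, card_neighborSet_eq_degree]
    exact hdeg v)
  have h1 : la G ≤ n := Nat.sInf_le hn
  have h2 : (la G : ℝ) ≤ n := by exact_mod_cast h1
  exact h2.trans hle

end Pool.Agent.Results.MP_0a041d_co.PolylogarithmicError
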